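import Pool.Agent.Helper54.PT.Defs

/-! TW module A8: power sums of the inverse roots. -/

set_option autoImplicit false

namespace Pool.Agent.Helper54.PT

open Polynomial Finset Filter Topology

lemma a8_newton (s : Multiset ℂ) (m : ℕ) :
    (m : ℂ) * s.esymm m = (-1) ^ (m + 1) *
      ∑ a ∈ antidiagonal m with a.1 < m,
        (-1) ^ a.1 * s.esymm a.1 * (s.map fun α => α ^ a.2).sum := by
  classical
  have h := congrArg (MvPolynomial.aeval (fun x : s => (x.1 : ℂ)))
    (MvPolynomial.mul_esymm_eq_sum s ℂ m)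
  have he : ∀ n, MvPolynomial.aeval (fun x : s => (x.1 : ℂ)) (MvPolynomial.esymm s ℂ n) =
      s.esymm n := by
    intro n
    rw [MvPolynomial.aeval_esymm_eq_multiset_esymm, Multiset.map_univ_coe]
  have hp : ∀ n, MvPolynomial.aeval (fun x : s => (x.1 : ℂ)) (MvPolynomial.psum s ℂ n) =
      (s.map fun α => α ^ n).sum := by
    intro n
    simp only [MvPolynomial.psum, map_sum, map_pow, MvPolynomial.aeval_X]
    rw [Finset.sum]
    congr 1
    have := congrArg (Multiset.map (fun α : ℂ => α ^ n)) (Multiset.map_univ_coe s)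
    rw [Multiset.map_map] at this
    exact this
  simp only [map_mul, map_sum, map_pow, map_neg, map_one, map_natCast, he, hp] at h
  exact h

lemma a8_antidiag (m : ℕ) (f : ℕ → ℕ → ℂ) :
    ∑ a ∈ antidiagonal m with a.1 < m, f a.1 a.2 = ∑ k ∈ Icc 1 m, f (m - k) k := by
  refine Finset.sum_bij' (fun a _ => a.2) (fun k _ => (m - k, k)) ?_ ?_ ?_ ?_ ?_
  · intro a ha
    rw [mem_filter, HasAntidiagonal.mem_antidiagonal] at ha
    rw [mem_Icc]
    omega
  · intro k hk
    rw [mem_Icc] at hk
    rw [mem_filter, HasAntidiagonal.mem_antidiagonal]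
    simp only
    omega
  · intro a ha
    rw [mem_filter, HasAntidiagonal.mem_antidiagonal] at ha
    ext
    · simp only; omega
    · rfl
  · intro k hk
    rfl
  · intro a ha
    rw [mem_filter, HasAntidiagonal.mem_antidiagonal] at ha
    congr 1
    omega

/-- A8: power sums of the inverse roots -/
theorem exists_roots (a Λ : ℕ → ℂ) (d : ℕ) (h0 : a 0 = 1) (hd : ∀ m, d ≤ m → a m = 0)
    (hrec : ∀ m : ℕ, (m : ℂ) * a m = ∑ k ∈ Icc 1 m, Λ k * a (m - k)) :
    ∃ s : Multiset ℂ, s.card ≤ d ∧ ∀ k, 1 ≤ k → Λ k = -(s.map fun α => α ^ k).sum := by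
  classical
  set P : ℂ[X] := ∑ i ∈ range (d + 1), C (a (d - i)) * X ^ i with hP
  have hc : ∀ k, P.coeff k = if k ≤ d then a (d - k) else 0 := by
    intro k
    rw [hP, finset_sum_coeff]
    simp only [coeff_C_mul, coeff_X_pow, mul_ite, mul_one, mul_zero]
    by_cases hk : k ≤ d
    · rw [if_pos hk, Finset.sum_ite_eq, if_pos (mem_range.2 (by omega))]
    · rw [if_neg hk, Finset.sum_ite_eq, if_neg (by rw [mem_range]; omega)]
  have hdeg : P.natDegree = d := by
    apply natDegree_eq_of_le_of_coeff_ne_zero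
    · rw [natDegree_le_iff_coeff_eq_zero]
      intro N hN
      rw [hc, if_neg (by omega)]
    · rw [hc, if_pos le_rfl, Nat.sub_self, h0]
      exact one_ne_zero
  have hlead : P.leadingCoeff = 1 := by
    rw [leadingCoeff, hdeg, hc, if_pos le_rfl, Nat.sub_self, h0]
  have hcard : P.roots.card = P.natDegree := splits_iff_card_roots.mp (IsAlgClosed.splits P)
  have hes : ∀ m, a m = (-1) ^ m * P.roots.esymm m := by
    intro m
    by_cases hm : m ≤ d
    · have h1 := coeff_eq_esymm_roots_of_card hcard (k := d - m) (by omega)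
      rw [hc, if_pos (by omega), hlead, one_mul, hdeg] at h1
      have e : d - (d - m) = m := by omega
      rwa [e] at h1
    · have h1 : P.roots.esymm m = 0 := by
        rw [Multiset.esymm, Multiset.powersetCard_eq_empty]
        · simp
        · rw [hcard, hdeg]; omega
      rw [hd m (by omega), h1, mul_zero]
  refine ⟨P.roots, by rw [hcard, hdeg], ?_⟩
  have hrec2 : ∀ m : ℕ, (m : ℂ) * a m =
      ∑ k ∈ Icc 1 m, -(P.roots.map fun α => α ^ k).sum * a (m - k) := by
    intro m
    have h1 := a8_newton P.roots m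
    have h2 : (m : ℂ) * a m = (-1) ^ m * ((m : ℂ) * P.roots.esymm m) := by
      rw [hes m]; ring
    rw [h2, h1, a8_antidiag m (fun i j => (-1) ^ i * P.roots.esymm i *
      (P.roots.map fun α => α ^ j).sum), ← mul_assoc, ← pow_add]
    have e : m + (m + 1) = 2 * m + 1 := by ring
    rw [e, pow_succ, pow_mul]
    norm_num
    refine sum_congr rfl fun k _ => ?_
    rw [hes (m - k)]
    ring
  intro k
  induction k using Nat.strong_induction_on with
  | _ m ih =>
    intro hm
    have h1 := hrec m
    have h2 := hrec2 m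
    rw [h1] at h2
    obtain ⟨n, rfl⟩ : ∃ n, m = n + 1 := ⟨m - 1, by omega⟩
    rw [sum_Icc_succ_top (by omega), sum_Icc_succ_top (by omega)] at h2
    have h3 : ∑ k ∈ Icc 1 n, Λ k * a (n + 1 - k) =
        ∑ k ∈ Icc 1 n, -(P.roots.map fun α => α ^ k).sum * a (n + 1 - k) := by
      refine sum_congr rfl fun k hk => ?_
      rw [mem_Icc] at hk
      rw [ih k (by omega) hk.1]
    rw [h3] at h2
    simpa [h0] using h2

end Pool.Agent.Helper54.PT
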