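import Pool.Agent.Helper54.PT.Defs

/-! TW module A9: bound for the elements of a multiset from a bound for the power sums. -/

set_option autoImplicit false

namespace Pool.Agent.Helper54.PT

open Polynomial Finset Filter Topology

lemma a9_expand (s : Multiset ℂ) (Q : ℂ[X]) (k : ℕ) :
    (s.map fun β => β ^ k * Q.eval β).sum =
      ∑ t ∈ range (Q.natDegree + 1), Q.coeff t * (s.map fun β => β ^ (k + t)).sum := by
  induction s using Multiset.induction with
  | empty => simp
  | cons b s ih =>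
    simp only [Multiset.map_cons, Multiset.sum_cons]
    rw [ih, eval_eq_sum_range, mul_sum, ← sum_add_distrib]
    refine sum_congr rfl fun t _ => ?_
    rw [pow_add]
    ring

/-- A9: bound for the elements from a bound for the power sums -/
theorem abs_le_of_power_sums (s : Multiset ℂ) (q : ℝ) (hq : 0 ≤ q)
    (h : ∀ k : ℕ, 1 ≤ k → ‖(s.map fun α => α ^ k).sum‖ ≤ q ^ k) : ∀ α ∈ s, ‖α‖ ≤ q := by
  classical
  intro α hα
  by_contra hlt
  push Not at hlt
  set Q : ℂ[X] := ∏ β ∈ s.toFinset.erase α, (X - C β) with hQ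
  have hQα : Q.eval α ≠ 0 := by
    rw [hQ, eval_prod, prod_ne_zero_iff]
    intro β hβ
    rw [eval_sub, eval_X, eval_C, sub_ne_zero]
    exact fun h => (ne_of_mem_erase hβ) h.symm
  have hQβ : ∀ β ∈ s, β ≠ α → Q.eval β = 0 := by
    intro β hβ hne
    rw [hQ, eval_prod]
    refine prod_eq_zero (i := β) (mem_erase.2 ⟨hne, Multiset.mem_toFinset.2 hβ⟩) ?_
    simp
  have hc : 1 ≤ s.count α := Multiset.one_le_count_iff_mem.2 hα
  have hk : ∀ k : ℕ, (s.count α : ℂ) * (α ^ k * Q.eval α) =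
      ∑ t ∈ range (Q.natDegree + 1), Q.coeff t * (s.map fun β => β ^ (k + t)).sum := by
    intro k
    rw [← a9_expand, Multiset.sum_map_eq_nsmul_single α]
    · simp
    · intro β hne hβ
      rw [hQβ β hβ hne, mul_zero]
  have hαp : 0 < ‖α‖ := lt_of_le_of_lt hq hlt
  set A : ℝ := ∑ t ∈ range (Q.natDegree + 1), ‖Q.coeff t‖ * q ^ t with hA
  have hb : ∀ k : ℕ, 1 ≤ k → ‖α‖ ^ k * ‖Q.eval α‖ ≤ A * q ^ k := by
    intro k hk1
    have h1 : ‖α‖ ^ k * ‖Q.eval α‖ ≤ ‖(s.count α : ℂ) * (α ^ k * Q.eval α)‖ := by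
      rw [norm_mul, norm_mul, norm_pow, Complex.norm_natCast]
      have : (1 : ℝ) ≤ s.count α := by exact_mod_cast hc
      have h0 : 0 ≤ ‖α‖ ^ k * ‖Q.eval α‖ := by positivity
      nlinarith
    refine h1.trans ?_
    rw [hk k, hA, sum_mul]
    refine (norm_sum_le _ _).trans (sum_le_sum fun t _ => ?_)
    rw [norm_mul, mul_assoc, ← pow_add, add_comm t k]
    exact mul_le_mul_of_nonneg_left (h (k + t) (by omega)) (norm_nonneg _)
  have hr : Tendsto (fun k : ℕ => A * (q / ‖α‖) ^ k) atTop (𝓝 0) := by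
    have h1 : q / ‖α‖ < 1 := (div_lt_one hαp).2 hlt
    have := (tendsto_pow_atTop_nhds_zero_of_lt_one (div_nonneg hq hαp.le) h1).const_mul A
    simpa using this
  have hpos : 0 < ‖Q.eval α‖ := norm_pos_iff.2 hQα
  have hev : ∀ᶠ k : ℕ in atTop, ‖Q.eval α‖ ≤ A * (q / ‖α‖) ^ k := by
    filter_upwards [eventually_ge_atTop 1] with k hk1
    have := hb k hk1
    rw [div_pow, ← mul_div_assoc, le_div_iff₀ (pow_pos hαp k)]
    linarith
  have := ge_of_tendsto hr hev
  linarith

end Pool.Agent.Helper54.PT
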