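import Pool.Agent.Helper83.TW.C3b

/-!
# C3c: the local descent group at a ramified twist
-/

set_option autoImplicit false

namespace Pool.Agent.Helper54.PT

open Polynomial Finset Filter Topology Module Pool.Agent.Helper47.BSD

universe u

variable {k : Type u} [NontriviallyNormedField k] [IsUltrametricDist k] [CompleteSpace k]
  {ℓ : ℕ} {π : k} {ι : Type} [Fintype ι] [DecidableEq ι] {a : ι → ℕ}

/-- C3c: the local descent group at a ramified twist (uses C3a, C3b) -/
theorem loc_ram
    (c3a : ∀ (e : ι → k) (d : ι → kˣ), d ∈ descentGroup ℓ a e →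
      ∃ y : k, ∏ i, (d i : k) ^ a i = y ^ ℓ)
    (c3b : ∀ (D : k) (m : ℤ) (_ : ¬ (ℓ : ℤ) ∣ m) (_ : ‖D‖ = ‖π‖ ^ m) (e : ι → k)
      (_ : ∀ i, ‖e i‖ ≤ 1) (_ : ∀ i j, i ≠ j → ‖e i - e j‖ = 1) (d : ι → kˣ)
      (_ : IsPointValue ℓ a (fun i => D * e i) d),
      (∀ j, ∃ x : k, (d j : k) = x ^ ℓ) ∨
        ∃ (i : ι) (n : ℕ), ∀ j, j ≠ i → ∃ x : k, (d j : k) = (D * e i - D * e j) ^ n * x ^ ℓ)
    (hℓ : ℓ.Prime) (hk : LF ℓ π) (ha : ∀ i, ¬ ℓ ∣ a i) (hs : ¬ ℓ ∣ ∑ i, a i) (D : k)
    (m : ℤ) (hm : ¬ (ℓ : ℤ) ∣ m) (hD : ‖D‖ = ‖π‖ ^ m) (e : ι → k) (h1 : ∀ i, ‖e i‖ ≤ 1)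
    (h2 : ∀ i j, i ≠ j → ‖e i - e j‖ = 1) (d : ι → kˣ)
    (hd : d ∈ descentGroup ℓ a (fun i => D * e i)) :
    ∃ (c : ι → ℕ) (x : ι → k), ∀ j,
      (d j : k) = (∏ i, tt ℓ a (fun i => D * e i) i j ^ c i) * x j ^ ℓ := by
  have hD0 : D ≠ 0 := by
    intro h
    rw [h, norm_zero] at hD
    exact (zpow_pos hk.pos m).ne hD
  have : Fact ℓ.Prime := ⟨hℓ⟩
  induction hd using Subgroup.closure_induction with
  | mem d hd =>
    rcases hd with hd | ⟨c, rfl⟩
    · rcases c3b D m hm hD e h1 h2 d hd with h | ⟨i, n, h⟩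
      · choose x hx using h
        exact ⟨0, x, fun j => by simp [← hx j]⟩
      · obtain ⟨y, hy⟩ := c3a _ d (Subgroup.subset_closure (Or.inl hd))
        have h' : ∀ j, ∃ x : k, j ≠ i → (d j : k) = (D * e i - D * e j) ^ n * x ^ ℓ := by
          intro j
          by_cases hj : j = i
          · exact ⟨0, fun hh => absurd hj hh⟩
          · obtain ⟨x, hx⟩ := h j hj
            exact ⟨x, fun _ => hx⟩
        choose x hx using h'
        set P : k := ∏ m ∈ univ.erase i, (D * e i - D * e m) ^ a m with hP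
        have hne : ∀ j, j ≠ i → D * e i - D * e j ≠ 0 := by
          intro j hj h0
          rw [← mul_sub] at h0
          have := h2 i j hj.symm
          rw [(mul_eq_zero.1 h0).resolve_left hD0, norm_zero] at this
          exact zero_ne_one this
        have hP0 : P ≠ 0 := prod_ne_zero_iff.2 fun j hj => pow_ne_zero _ (hne j (ne_of_mem_erase hj))
        set X : k := ∏ m ∈ univ.erase i, x m ^ a m with hX
        have hxne : ∀ j, j ≠ i → x j ≠ 0 := by
          intro j hj h0
          have := hx j hj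
          rw [h0, zero_pow hℓ.ne_zero, mul_zero] at this
          exact (d j).ne_zero this
        have hX0 : X ≠ 0 := prod_ne_zero_iff.2 fun j hj => pow_ne_zero _ (hxne j (ne_of_mem_erase hj))
        have hdi : (d i : k) ^ a i * (P ^ n * X ^ ℓ) = y ^ ℓ := by
          rw [← hy, ← mul_prod_erase univ (fun j => (d j : k) ^ a j) (mem_univ i)]
          congr 1
          rw [hP, hX, ← prod_pow, ← prod_pow, ← prod_mul_distrib]
          refine prod_congr rfl fun j hj => ?_
          rw [hx j (ne_of_mem_erase hj), mul_pow, ← pow_mul, ← pow_mul, ← pow_mul, ← pow_mul,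
            mul_comm n, mul_comm ℓ]
        have hai : ((a i : ℕ) : ZMod ℓ) ≠ 0 := by
          rw [Ne, ZMod.natCast_eq_zero_iff]
          exact ha i
        obtain ⟨t, ht⟩ : ∃ t : ℕ, a i * inva ℓ (a i) = 1 + ℓ * t := by
          have h5 : ((a i * inva ℓ (a i) : ℕ) : ZMod ℓ) = ((1 : ℕ) : ZMod ℓ) := by
            unfold inva
            rw [Nat.cast_mul, ZMod.natCast_zmod_val, mul_inv_cancel₀ hai, Nat.cast_one]
          have h6 : a i * inva ℓ (a i) ≡ 1 [MOD ℓ] := (ZMod.natCast_eq_natCast_iff _ _ _).1 h5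
          have h7 : 1 ≤ a i * inva ℓ (a i) := by
            rcases Nat.eq_zero_or_pos (a i * inva ℓ (a i)) with h8 | h8
            · rw [h8] at h5
              simp at h5
            · exact h8
          obtain ⟨t, ht⟩ := (Nat.modEq_iff_dvd' h7).1 h6.symm
          exact ⟨t, by omega⟩
        have hdi2 : (d i : k) = ((P ^ inva ℓ (a i))⁻¹) ^ n *
            ((y / X) ^ inva ℓ (a i) / (d i : k) ^ t) ^ ℓ := by
          have hd0 : (d i : k) ≠ 0 := (d i).ne_zero
          have h8 : (d i : k) ^ a i = (y / X) ^ ℓ / P ^ n := by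
            rw [div_pow, ← hdi]
            field_simp
          have h9 : (d i : k) * ((d i : k) ^ t) ^ ℓ = ((y / X) ^ ℓ / P ^ n) ^ inva ℓ (a i) := by
            rw [← h8, ← pow_mul (d i : k) (a i), ht, ← pow_mul, pow_add, pow_one, mul_comm t]
          rw [div_pow, mul_div_assoc', eq_div_iff (pow_ne_zero _ (pow_ne_zero _ hd0)), h9,
            div_pow, ← pow_mul, ← pow_mul, ← pow_mul, inv_pow, ← pow_mul, mul_comm ℓ, mul_comm n]
          field_simp
        refine ⟨fun m => if m = i then n else 0,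
          fun j => if j = i then (y / X) ^ inva ℓ (a i) / (d i : k) ^ t else x j, fun j => ?_⟩
        have hprod : (∏ m, tt ℓ a (fun i => D * e i) m j ^ (if m = i then n else 0)) =
            tt ℓ a (fun i => D * e i) i j ^ n := by
          rw [prod_eq_single i]
          · rw [if_pos rfl]
          · intro b _ hb
            rw [if_neg hb, pow_zero]
          · intro h; exact absurd (mem_univ i) h
        rw [hprod]
        beta_reduce
        by_cases hj : j = i
        · subst hj
          rw [if_pos rfl]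
          unfold tt
          rw [if_pos rfl]
          exact hdi2
        · rw [if_neg hj]
          unfold tt
          rw [if_neg hj]
          exact hx j hj
    · exact ⟨0, fun j => (c j : k), fun j => by simp⟩
  | one => exact ⟨0, 1, fun j => by simp⟩
  | mul d d' _ _ h h' =>
    obtain ⟨c, x, hx⟩ := h
    obtain ⟨c', x', hx'⟩ := h'
    refine ⟨c + c', x * x', fun j => ?_⟩
    rw [Pi.mul_apply, Units.val_mul, hx, hx']
    simp only [Pi.add_apply, Pi.mul_apply, pow_add, prod_mul_distrib, mul_pow]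
    ring
  | inv d _ h =>
    obtain ⟨c, x, hx⟩ := h
    refine ⟨fun i => (ℓ - 1) * c i,
      fun j => (∏ i, tt ℓ a (fun i => D * e i) i j ^ c i)⁻¹ * (x j)⁻¹, fun j => ?_⟩
    have hT : (∏ i, tt ℓ a (fun i => D * e i) i j ^ c i) ≠ 0 := by
      intro h0
      have := hx j
      rw [h0, zero_mul] at this
      exact (d j).ne_zero this
    have hx0 : x j ≠ 0 := by
      intro h0
      have := hx j
      rw [h0, zero_pow hℓ.ne_zero, mul_zero] at this
      exact (d j).ne_zero this
    have h3 : (∏ i, tt ℓ a (fun i => D * e i) i j ^ ((ℓ - 1) * c i)) =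
        (∏ i, tt ℓ a (fun i => D * e i) i j ^ c i) ^ (ℓ - 1) := by
      rw [← prod_pow]
      exact prod_congr rfl fun i _ => by rw [← pow_mul, mul_comm]
    rw [Pi.inv_apply, Units.val_inv_eq_inv_val, hx j, h3]
    beta_reduce
    generalize (∏ i, tt ℓ a (fun i => D * e i) i j ^ c i) = T at hT ⊢
    have h4 : T ^ ℓ = T ^ (ℓ - 1) * T := by
      rw [← pow_succ, Nat.sub_add_cancel hℓ.one_le]
    rw [mul_pow, inv_pow, inv_pow, h4]
    field_simp

end Pool.Agent.Helper54.PT
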