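import Pool.Agent.Helper54.PT.DefsD

/-!
# C3b: point values at a ramified twist
-/

set_option autoImplicit false

namespace Pool.Agent.Helper54.PT

open Polynomial Finset Filter Topology Module Pool.Agent.Helper47.BSD

universe u

namespace C3b

/-- Bezout: if `x ^ s` is an `ℓ`-th power and `s` is prime to `ℓ`, then `x` is an `ℓ`-th power. -/
theorem root_of_coprime {L : Type u} [Field L] {s ℓ : ℕ} (h : Nat.Coprime s ℓ) {x y : L}
    (hx : x ≠ 0) (hxy : x ^ s = y ^ ℓ) : ∃ r : L, r ≠ 0 ∧ x = r ^ ℓ := by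
  rcases Nat.eq_zero_or_pos ℓ with h0 | hpos
  · subst h0
    have hs : s = 1 := by simpa using h
    subst hs
    exact ⟨1, one_ne_zero, by simpa using hxy⟩
  have hy : y ≠ 0 := by
    intro hy
    rw [hy, zero_pow hpos.ne'] at hxy
    exact pow_ne_zero s hx hxy
  refine ⟨y ^ (s.gcdA ℓ) * x ^ (s.gcdB ℓ), mul_ne_zero (zpow_ne_zero _ hy) (zpow_ne_zero _ hx),
    ?_⟩
  have h1 : (1 : ℤ) = s * s.gcdA ℓ + ℓ * s.gcdB ℓ := by
    have := Nat.gcd_eq_gcd_ab s ℓ
    rw [h] at this
    exact_mod_cast this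
  have h2 : y ^ (ℓ : ℤ) = x ^ (s : ℤ) := by exact_mod_cast hxy.symm
  calc x = x ^ (1 : ℤ) := (zpow_one _).symm
    _ = x ^ ((s : ℤ) * s.gcdA ℓ) * x ^ ((ℓ : ℤ) * s.gcdB ℓ) := by
        rw [← zpow_add₀ hx, ← h1]
    _ = (y ^ (ℓ : ℤ)) ^ (s.gcdA ℓ) * x ^ ((ℓ : ℤ) * s.gcdB ℓ) := by
        rw [h2, ← zpow_mul]
    _ = (y ^ (s.gcdA ℓ) * x ^ (s.gcdB ℓ)) ^ ℓ := by
        rw [mul_pow, ← zpow_natCast, ← zpow_natCast,
          ← zpow_mul, ← zpow_mul, ← zpow_mul, mul_comm (ℓ : ℤ), mul_comm (ℓ : ℤ)]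

end C3b

variable {k : Type u} [NontriviallyNormedField k] [IsUltrametricDist k] [CompleteSpace k]
  {ℓ : ℕ} {π : k} {ι : Type} [Fintype ι] [DecidableEq ι] {a : ι → ℕ}

/-- C3b: point values at a ramified twist (uses C1', C2b) -/
theorem point_ram
    (c1 : ∀ (L : Type u) [Field L] [Algebra k L] [FiniteDimensional k L] (z : L),
      specAbs k L (z - 1) < 1 → ∃ w : L, w ^ ℓ = z ∧ specAbs k L (w - 1) < 1)
    (c2b : ∀ (L : Type u) [Field L] [Algebra k L] [FiniteDimensional k L] (z : L),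
      specAbs k L z ^ ℓ = ‖π‖ →
        ℓ ∣ finrank k L ∧ ∀ u : L, specAbs k L u = 1 → ∃ c : k, Algebra.norm k u = c ^ ℓ)
    (hℓ : ℓ.Prime) (hk : LF ℓ π) (ha : ∀ i, ¬ ℓ ∣ a i) (hs : ¬ ℓ ∣ ∑ i, a i) (D : k)
    (m : ℤ) (hm : ¬ (ℓ : ℤ) ∣ m) (hD : ‖D‖ = ‖π‖ ^ m) (e : ι → k) (h1 : ∀ i, ‖e i‖ ≤ 1)
    (h2 : ∀ i j, i ≠ j → ‖e i - e j‖ = 1) (d : ι → kˣ)
    (hd : IsPointValue ℓ a (fun i => D * e i) d) :
    (∀ j, ∃ x : k, (d j : k) = x ^ ℓ) ∨
      ∃ (i : ι) (n : ℕ), ∀ j, j ≠ i → ∃ x : k, (d j : k) = (D * e i - D * e j) ^ n * x ^ ℓ := by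
  obtain ⟨L, _, _, _, x, y, hy, hxy, hdv⟩ := hd
  have hD0 : D ≠ 0 := by
    intro h
    rw [h, norm_zero] at hD
    exact (zpow_pos hk.pos m).ne hD
  have hπ0 : π ≠ 0 := norm_pos_iff.1 hk.pos
  set D' : L := algebraMap k L D with hD'
  have hD'0 : D' ≠ 0 := by rw [hD']; simpa using hD0
  set x' : L := x / D' with hx'
  have hfac : ∀ i, x - algebraMap k L (D * e i) = D' * (x' - algebraMap k L (e i)) := by
    intro i
    rw [map_mul, ← hD', hx', mul_sub, mul_div_cancel₀ _ hD'0]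
  have hNe : ∀ i, specAbs k L (algebraMap k L (e i)) ≤ 1 := fun i => by
    rw [specAbs_algebraMap]; exact h1 i
  have hult := specAbs_add_le (k := k) (L := L)
  rcases lt_or_ge 1 (specAbs k L x') with hX | hX
  · -- (i)
    left
    have hx'0 : x' ≠ 0 := by
      intro h
      rw [h, map_zero] at hX
      exact absurd hX (by norm_num)
    have hx0 : x ≠ 0 := by
      intro h
      apply hx'0
      rw [hx', h, zero_div]
    have hw : ∀ i, ∃ w : L, w ^ ℓ = 1 - algebraMap k L (e i) / x' ∧ specAbs k L (w - 1) < 1 := by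
      intro i
      apply c1 L
      have : (1 : L) - algebraMap k L (e i) / x' - 1 = -(algebraMap k L (e i) / x') := by ring
      rw [this, AbsoluteValue.map_neg, map_div₀, div_lt_one (by positivity)]
      exact lt_of_le_of_lt (hNe i) hX
    choose w hw1 hw2 using hw
    have hw0 : ∀ i, w i ≠ 0 := by
      intro i h
      have := hw2 i
      rw [h, zero_sub, AbsoluteValue.map_neg, map_one] at this
      exact lt_irrefl _ this
    have hxw : ∀ i, x - algebraMap k L (D * e i) = x * w i ^ ℓ := by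
      intro i
      rw [hfac, hw1]
      rw [show x = D' * x' by rw [hx']; field_simp]
      field_simp
    have hpow : x ^ (∑ i, a i) = (y / ∏ i, w i ^ a i) ^ ℓ := by
      have h3 : (∏ i, w i ^ a i) ≠ 0 := prod_ne_zero_iff.2 fun i _ => pow_ne_zero _ (hw0 i)
      rw [div_pow, hxy, eq_div_iff (pow_ne_zero _ h3)]
      rw [← prod_pow_eq_pow_sum, ← prod_pow, ← prod_mul_distrib]
      refine prod_congr rfl fun i _ => ?_
      rw [hxw, mul_pow, ← pow_mul, ← pow_mul, mul_comm (a i) ℓ]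
    obtain ⟨r, _, hr⟩ := C3b.root_of_coprime
      ((Nat.Prime.coprime_iff_not_dvd hℓ).2 hs).symm hx0 hpow
    intro j
    refine ⟨Algebra.norm k (r * w j), ?_⟩
    rw [hdv j, ← map_pow]
    congr 1
    rw [hxw, mul_pow, ← hr]
  · have hle : ∀ j, specAbs k L (x' - algebraMap k L (e j)) ≤ 1 := fun j => by
      rw [sub_eq_add_neg]
      refine (hult _ _).trans (max_le hX ?_)
      rw [AbsoluteValue.map_neg]
      exact hNe j
    by_cases hall : ∀ j, specAbs k L (x' - algebraMap k L (e j)) = 1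
    · -- (ii)
      left
      have hyA : specAbs k L y ^ ℓ = ‖π‖ ^ (m * (∑ i, a i : ℕ)) := by
        rw [← map_pow, hxy, map_prod]
        have h3 : ∀ i, specAbs k L ((x - algebraMap k L (D * e i)) ^ a i) = ‖D‖ ^ a i := by
          intro i
          rw [map_pow, hfac, map_mul, hall, mul_one, hD', specAbs_algebraMap]
        rw [prod_congr rfl fun i _ => h3 i, prod_pow_eq_pow_sum, hD, ← zpow_natCast, ← zpow_mul]
      have hcop : IsCoprime (m * (∑ i, a i : ℕ)) (ℓ : ℤ) := by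
        have hp : Prime (ℓ : ℤ) := Nat.prime_iff_prime_int.1 hℓ
        refine ((Prime.coprime_iff_not_dvd hp).2 ?_).symm
        intro h
        rcases hp.dvd_or_dvd h with h | h
        · exact hm h
        · exact hs (by exact_mod_cast h)
      obtain ⟨u, v, huv⟩ := hcop
      have hz : specAbs k L (y ^ u * algebraMap k L π ^ v) ^ ℓ = ‖π‖ := by
        rw [map_mul, map_zpow₀, map_zpow₀, specAbs_algebraMap, mul_pow]
        rw [← zpow_natCast, ← zpow_natCast, ← zpow_mul, ← zpow_mul, mul_comm u, zpow_mul,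
          zpow_natCast, hyA, ← zpow_mul, ← zpow_add₀ hk.pos.ne']
        have : m * (∑ i, a i : ℕ) * u + v * (ℓ : ℤ) = 1 := by linarith
        rw [this, zpow_one]
      obtain ⟨⟨n, hn⟩, hN⟩ := c2b L _ hz
      intro j
      obtain ⟨c, hc⟩ := hN _ (hall j)
      refine ⟨D ^ n * c, ?_⟩
      rw [hdv j, hfac, map_mul, hc, hD', Algebra.norm_algebraMap, hn, mul_pow, ← pow_mul,
        mul_comm ℓ n]
    · -- (iii)
      right
      push Not at hall
      obtain ⟨i, hi⟩ := hall
      have hi' : specAbs k L (x' - algebraMap k L (e i)) < 1 := lt_of_le_of_ne (hle i) hi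
      refine ⟨i, finrank k L, fun j hj => ?_⟩
      have hij : e i - e j ≠ 0 := by
        intro h
        have := h2 i j hj.symm
        rw [h, norm_zero] at this
        exact zero_ne_one this
      have hij' : algebraMap k L (e i - e j) ≠ 0 :=
        (map_ne_zero_iff _ (algebraMap k L).injective).2 hij
      obtain ⟨w, hw1, hw2⟩ := c1 L (1 + (x' - algebraMap k L (e i)) / algebraMap k L (e i - e j)) (by
        rw [add_sub_cancel_left, map_div₀, specAbs_algebraMap, h2 i j hj.symm, div_one]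
        exact hi')
      refine ⟨Algebra.norm k w, ?_⟩
      rw [hdv j, ← map_pow, hw1]
      have h4 : x - algebraMap k L (D * e j) = algebraMap k L (D * e i - D * e j) *
          (1 + (x' - algebraMap k L (e i)) / algebraMap k L (e i - e j)) := by
        rw [hfac, ← mul_sub, map_mul, ← hD', mul_assoc]
        congr 1
        rw [mul_add, mul_one, mul_div_cancel₀ _ hij', map_sub]
        ring
      rw [h4, map_mul, Algebra.norm_algebraMap]

end Pool.Agent.Helper54.PT
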